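import Pool.Agent.TH130.CI.Cz

/-!
Milnor algebras of smooth hypersurfaces in many variables have the strong Lefschetz maps of maximal
rank in their lowest and their highest degrees.
-/

open MvPolynomial

namespace Pool.Agent.Results.MP_2e2d1a_ag.LowDegrees

/-- Let `f ∈ ℂ[x_0, …, x_n]` be a form of degree `d ≥ 3` with `V(f)` smooth (the partial derivatives
have no common zero except the origin), and `M(f)` its Milnor algebra, of socle degree
`(n + 1) (d - 2)`.  Suppose that `n + 1 ≥ 210` and `N ≤ 3`, or `n + 1 ≥ 1162` and `N ≤ 4`, or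
`n + 1 ≥ 32 ^ (N + 1)`.  Then there is a linear form `ℓ` such that for all `i, k` the map
`ℓ ^ k : M(f)_i → M(f)_{i+k}` is injective if `i + k ≤ N` and surjective if
`i ≥ (n + 1) (d - 2) - N`. -/
theorem result (n d N : ℕ) (f : MvPolynomial (Fin (n + 1)) ℂ) (hd : 3 ≤ d)
    (hf : f.IsHomogeneous d)
    (hsm : ∀ x : Fin (n + 1) → ℂ, (∀ i, eval x (pderiv i f) = 0) → x = 0)
    (hN : 32 ^ (N + 1) ≤ n + 1 ∨ (N ≤ 3 ∧ 210 ≤ n + 1) ∨ (N ≤ 4 ∧ 1162 ≤ n + 1)) :
    ∃ ℓ ∈ homogeneousSubmodule (Fin (n + 1)) ℂ 1, ∀ i k : ℕ,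
      (i + k ≤ N → ∀ g ∈ homogeneousSubmodule (Fin (n + 1)) ℂ i,
        ℓ ^ k * g ∈ Ideal.span (Set.range (fun i : Fin (n + 1) => pderiv i f)) →
        g ∈ Ideal.span (Set.range (fun i : Fin (n + 1) => pderiv i f))) ∧
      ((n + 1) * (d - 2) ≤ i + N → ∀ h ∈ homogeneousSubmodule (Fin (n + 1)) ℂ (i + k),
        ∃ g ∈ homogeneousSubmodule (Fin (n + 1)) ℂ i,
          h - ℓ ^ k * g ∈ Ideal.span (Set.range (fun i : Fin (n + 1) => pderiv i f))) := by
  have hp : ∀ i, (pderiv i f).IsHomogeneous (d - 1) := fun i => hf.pderiv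
  have hreg := TH130CI.reg_of_common_zero (fun i : Fin (n + 1) => pderiv i f) (fun _ => d - 1)
    (fun _ => by omega) hp hsm
  obtain ⟨ℓ, h1, h2⟩ := TH130CI.ci_explicit (f := fun i : Fin (n + 1) => pderiv i f)
    (d := fun _ => d - 1) (fun _ => by omega) hp hreg hN
  refine ⟨ℓ, h1, fun i k => ⟨(h2 i k).1, fun hi => (h2 i k).2 ?_⟩⟩
  rw [Finset.sum_const, Finset.card_univ, Fintype.card_fin, smul_eq_mul,
    show d - 1 - 1 = d - 2 by omega]
  exact hi

end Pool.Agent.Results.MP_2e2d1a_ag.LowDegrees
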